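import Pool.Agent.TH305.AX.CmpT2

/-!
Axisymmetric flows (helper176): comparison of the circulation with a stationary barrier, at the
critical strength of the inflow.
-/

set_option autoImplicit false

open MeasureTheory Set Metric Filter Topology
open scoped ContDiff

namespace Pool.Agent.Q176.AX

open H459R3.NS W221.NS Pool.Agent.TH305.AX

variable {ν T : ℝ} {u : ℝ → V → V} {p : ℝ → V → ℝ}

/-- Comparison with a stationary barrier `ψ`, `(σ ψ')' = θ ψ'`. -/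
theorem gen (hν : 0 < ν) (hT : 0 < T) (h : AxSol ν T u p) {S M K b : ℝ} (hS : 0 < S)
    {ψ ψ₁ θ B : ℝ → ℝ}
    (hψ : ∀ σ ∈ Ioc 0 S, 0 < ψ σ) (hψc : ContinuousOn ψ (Ioc 0 S))
    (hsm : ContDiffOn ℝ 2 ψ (Ioo 0 S))
    (hd1 : ∀ σ ∈ Ioo 0 S, HasDerivAt ψ (ψ₁ σ) σ)
    (hp : ∀ σ ∈ Ioo 0 S, 0 < ψ₁ σ)
    (hd2 : ∀ σ ∈ Ioo 0 S, HasDerivAt ψ₁ ((θ σ - 1) * ψ₁ σ / σ) σ)
    (h0 : ∀ ε > 0, ∃ δ > 0, ∀ σ ∈ Ioc 0 S, σ < δ → √σ ≤ ε * ψ σ)
    (hM : ∀ x, |circ (u 0) x| ≤ M)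
    (hB : ContinuousOn B (Ico 0 T)) (hB0 : ∀ t ∈ Ico 0 T, 0 ≤ B t)
    (hBi : ∀ t ∈ Ico 0 T, ∫ r in (0 : ℝ)..t, B r ≤ b)
    (hcond : ∀ t ∈ Ioo 0 T, ∀ x, 0 < sg x → sg x < S → K * ψ (sg x) < |circ (u t) x| →
      (∀ y, sg y = sg x → |circ (u t) y| ≤ |circ (u t) x|) →
      -(2 * ν * (1 - θ (sg x))) - B t * (ψ (sg x) / ψ₁ (sg x))
        ≤ x 0 * u t x 0 + x 1 * u t x 1) :
    ∃ A : ℝ, ∀ t ∈ Ico 0 T, ∀ x, 0 < sg x → sg x ≤ S → |circ (u t) x| ≤ A * ψ (sg x) := by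
  have hM0 : 0 ≤ M := (abs_nonneg _).trans (hM 0)
  have hψS : 0 < ψ S := hψ S ⟨hS, le_rfl⟩
  obtain ⟨k, hk, hini⟩ : ∃ k : ℝ, 0 < k ∧ ∀ σ ∈ Ioc 0 S, k * √σ ≤ ψ σ := by
    obtain ⟨δ, hδ, hδ'⟩ := h0 1 one_pos
    have hc : ContinuousOn ψ (Icc (min δ S) S) :=
      hψc.mono fun σ hσ => ⟨(lt_min hδ hS).trans_le hσ.1, hσ.2⟩
    obtain ⟨σ₀, hσ₀, hmin⟩ := isCompact_Icc.exists_isMinOn
      (nonempty_Icc.2 (min_le_right δ S)) hc
    have hσ₀0 : 0 < σ₀ := (lt_min hδ hS).trans_le hσ₀.1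
    have hm0 : 0 < ψ σ₀ := hψ σ₀ ⟨hσ₀0, hσ₀.2⟩
    have hRS : 0 < √S := Real.sqrt_pos.2 hS
    refine ⟨min 1 (ψ σ₀ / √S), lt_min one_pos (by positivity), fun σ hσ => ?_⟩
    have hsq := Real.sqrt_nonneg σ
    rcases lt_or_ge σ δ with h1 | h1
    · have h2 := hδ' σ hσ h1
      rw [one_mul] at h2
      refine le_trans ?_ h2
      have := min_le_left 1 (ψ σ₀ / √S)
      nlinarith
    · have h2 : ψ σ₀ ≤ ψ σ := hmin (show σ ∈ Icc (min δ S) S from ⟨(min_le_left _ _).trans h1, hσ.2⟩)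
      refine le_trans ?_ h2
      have h3 := min_le_right 1 (ψ σ₀ / √S)
      have h4 : √σ ≤ √S := Real.sqrt_le_sqrt hσ.2
      calc min 1 (ψ σ₀ / √S) * √σ ≤ ψ σ₀ / √S * √S := by gcongr
        _ = _ := by field_simp
  obtain ⟨U, hU0, hU⟩ := u_bdd h hT
  have hmax := circ_max hν h hM
  obtain ⟨A, hAe⟩ : ∃ A : ℝ, A = M / ψ S + (2 * U / k + |K|) := ⟨_, rfl⟩
  have hA1 : M / ψ S ≤ A := by
    have : 0 ≤ 2 * U / k + |K| := by positivity
    rw [hAe]; linarith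
  have hA2 : 2 * U / k ≤ A := by
    have h1 : 0 ≤ M / ψ S := by positivity
    have h2 : 0 ≤ |K| := by positivity
    rw [hAe]; linarith
  have hA3 : K ≤ A := by
    have h1 : 0 ≤ M / ψ S := by positivity
    have h2 : 0 ≤ 2 * U / k := by positivity
    have h3 := le_abs_self K
    rw [hAe]; linarith
  have hA0 : 0 ≤ A := le_trans (by positivity) hA1
  have key := cmpT hν h hS (A := A) (Φ := fun _ σ => ψ σ)
    (fun t _ σ hσ => hψ σ hσ)
    (hψc.comp (f := fun z : ℝ × ℝ => z.2) continuous_snd.continuousOn fun z hz => hz.2)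
    (fun T' _ ε hε => by
      obtain ⟨δ, hδ, hδ'⟩ := h0 ε hε
      exact ⟨δ, hδ, fun t _ σ hσ hσδ => hδ' σ hσ hσδ⟩)
    (B := fun t => 2 * B t) (hB.const_smul (2 : ℝ))
    (fun t ht => by have := hB0 t ht; positivity)
    (fun t ht x _ => by
      have h1 := hmax t ht x
      have h3 : M ≤ A * ψ S := by rwa [div_le_iff₀ hψS] at hA1
      linarith)
    (fun x hx hxS => by
      have h1 := hini (sg x) ⟨hx, hxS⟩
      have h2 : |circ (u 0) x| ≤ 2 * U * √(sg x) := by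
        have hx0 : |x 0| ≤ √(sg x) := by
          apply Real.abs_le_sqrt
          unfold sg
          nlinarith [sq_nonneg (x 1)]
        have hx1 : |x 1| ≤ √(sg x) := by
          apply Real.abs_le_sqrt
          unfold sg
          nlinarith [sq_nonneg (x 0)]
        have hn := hU 0 ⟨le_rfl, le_rfl⟩ x
        have hu0 : |u 0 x 0| ≤ U := (norm_le_pi_norm (u 0 x) 0).trans hn
        have hu1 : |u 0 x 1| ≤ U := (norm_le_pi_norm (u 0 x) 1).trans hn
        have h3 : |circ (u 0) x| ≤ |x 0| * |u 0 x 1| + |x 1| * |u 0 x 0| := by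
          unfold circ
          rw [← abs_mul, ← abs_mul]
          exact abs_sub _ _
        have h4 : |x 0| * |u 0 x 1| ≤ √(sg x) * U :=
          mul_le_mul hx0 hu1 (abs_nonneg _) (Real.sqrt_nonneg _)
        have h5 : |x 1| * |u 0 x 0| ≤ √(sg x) * U :=
          mul_le_mul hx1 hu0 (abs_nonneg _) (Real.sqrt_nonneg _)
        linarith
      have h3 : 2 * U ≤ A * k := by rwa [div_le_iff₀ hk] at hA2
      have hsq := Real.sqrt_nonneg (sg x)
      calc |circ (u 0) x| ≤ 2 * U * √(sg x) := h2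
        _ ≤ A * k * √(sg x) := mul_le_mul_of_nonneg_right h3 hsq
        _ = A * (k * √(sg x)) := by ring
        _ ≤ _ := mul_le_mul_of_nonneg_left h1 hA0)
    (fun t ht x hx hxS hAx htop => by
      have hσ : sg x ∈ Ioo 0 S := ⟨hx, hxS⟩
      have hψx : 0 < ψ (sg x) := hψ _ ⟨hx, hxS.le⟩
      have hpx := hp _ hσ
      have h2 : K * ψ (sg x) < |circ (u t) x| :=
        lt_of_le_of_lt (mul_le_mul_of_nonneg_right hA3 hψx.le) hAx
      have h3 : ∀ y, sg y = sg x → |circ (u t) y| ≤ |circ (u t) x| := by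
        intro y hy
        have h4 := htop y (by rw [hy]; exact hx) (by rw [hy]; exact hxS.le)
        simp only [hy] at h4
        exact le_of_mul_le_mul_right h4 hψx
      have h4 := hcond t ht x hx hxS h2 h3
      refine ⟨ψ, ψ₁, (θ (sg x) - 1) * ψ₁ (sg x) / sg x, 0, fun _ => ψ (sg x), ?_, ?_⟩
      · exact
          { smooth := hsm.contDiffAt (Ioo_mem_nhds hx hxS)
            hd1 := by
              filter_upwards [Ioo_mem_nhds hx hxS] with r hr
              exact hd1 r hr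
            hd2 := hd2 _ hσ
            le := Eventually.of_forall fun _ => le_rfl
            eq := rfl
            tle := Eventually.of_forall fun _ => le_rfl
            teq := rfl
            td := hasDerivAt_const _ _ }
      · have h5 : 4 * ν * sg x * ((θ (sg x) - 1) * ψ₁ (sg x) / sg x)
            = 4 * ν * (θ (sg x) - 1) * ψ₁ (sg x) := by
          field_simp
        rw [h5, zero_add]
        have h6 := mul_le_mul_of_nonneg_right h4 hpx.le
        have h7 : (-(2 * ν * (1 - θ (sg x))) - B t * (ψ (sg x) / ψ₁ (sg x))) * ψ₁ (sg x)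
            = -(2 * ν * (1 - θ (sg x))) * ψ₁ (sg x) - B t * ψ (sg x) := by
          field_simp
        rw [h7] at h6
        linarith)
  refine ⟨A * Real.exp (2 * b), fun t ht x hx hxS => ?_⟩
  have h1 := key t ht x hx hxS
  have h2 : ∫ r in (0 : ℝ)..t, 2 * B r = 2 * ∫ r in (0 : ℝ)..t, B r :=
    intervalIntegral.integral_const_mul _ _
  rw [h2] at h1
  have h3 := Real.exp_le_exp.2 (show 2 * (∫ r in (0 : ℝ)..t, B r) ≤ 2 * b by linarith [hBi t ht])
  have hψx : 0 < ψ (sg x) := hψ _ ⟨hx, hxS⟩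
  calc |circ (u t) x| ≤ A * Real.exp (2 * ∫ r in (0 : ℝ)..t, B r) * ψ (sg x) := h1
    _ ≤ A * Real.exp (2 * b) * ψ (sg x) := by gcongr

end Pool.Agent.Q176.AX
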