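import Pool.Agent.Q176.AX.Crit

/-!
Axisymmetric flows (helper176): the barriers of the critical inflow.
-/

set_option autoImplicit false

open MeasureTheory Set Metric Filter Topology
open scoped ContDiff

namespace Pool.Agent.Q176.AX

/-- twice continuously differentiable functions -/
lemma cd2 {s : Set ℝ} (hs : IsOpen s) {ψ ψ₁ ψ₂ : ℝ → ℝ}
    (hd1 : ∀ σ ∈ s, HasDerivAt ψ (ψ₁ σ) σ) (hd2 : ∀ σ ∈ s, HasDerivAt ψ₁ (ψ₂ σ) σ)
    (hc : ContinuousOn ψ₂ s) : ContDiffOn ℝ 2 ψ s := by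
  have h1 : ContDiffOn ℝ 1 ψ₁ s := by
    have : (1 : WithTop ℕ∞) = 0 + 1 := by norm_num
    rw [this, contDiffOn_succ_iff_deriv_of_isOpen hs]
    refine ⟨fun σ hσ => (hd2 σ hσ).differentiableAt.differentiableWithinAt, by simp, ?_⟩
    rw [contDiffOn_zero]
    exact hc.congr fun σ hσ => (hd2 σ hσ).deriv
  have h2 : (2 : WithTop ℕ∞) = 1 + 1 := by norm_num
  rw [h2, contDiffOn_succ_iff_deriv_of_isOpen hs]
  refine ⟨fun σ hσ => (hd1 σ hσ).differentiableAt.differentiableWithinAt, by simp, ?_⟩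
  exact h1.congr fun σ hσ => (hd1 σ hσ).deriv

/-- `exp (- ∫_σ^S θ(r) / r dr)`. -/
noncomputable def Th (S : ℝ) (θ : ℝ → ℝ) (σ : ℝ) : ℝ := Real.exp (-∫ r in σ..S, θ r / r)

/-- `∫_0^σ Θ(s) / s ds`. -/
noncomputable def Ps (S : ℝ) (θ : ℝ → ℝ) (σ : ℝ) : ℝ := ∫ s in (0 : ℝ)..σ, Th S θ s / s

section
variable {S θ₀ : ℝ} {θ : ℝ → ℝ}

lemma th_pos (σ : ℝ) : 0 < Th S θ σ := Real.exp_pos _

lemma div_cont (hθ : ContinuousOn θ (Ioc 0 S)) : ContinuousOn (fun r => θ r / r) (Ioc 0 S) :=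
  hθ.div continuousOn_id fun _ hr => hr.1.ne'

lemma div_int (hθ : ContinuousOn θ (Ioc 0 S)) {σ : ℝ} (hσ : σ ∈ Ioc 0 S) :
    IntervalIntegrable (fun r => θ r / r) volume σ S := by
  apply ContinuousOn.intervalIntegrable
  rw [uIcc_of_le hσ.2]
  exact (div_cont hθ).mono fun r hr => ⟨hσ.1.trans_le hr.1, hr.2⟩

lemma th_hd (hθ : ContinuousOn θ (Ioc 0 S)) {σ : ℝ} (hσ : σ ∈ Ioo 0 S) :
    HasDerivAt (Th S θ) (Th S θ σ * (θ σ / σ)) σ := by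
  have hc : ContinuousOn (fun r => θ r / r) (Ioo 0 S) := (div_cont hθ).mono Ioo_subset_Ioc_self
  have h1 := intervalIntegral.integral_hasDerivAt_left (div_int hθ ⟨hσ.1, hσ.2.le⟩)
    (hc.stronglyMeasurableAtFilter isOpen_Ioo σ hσ) (hc.continuousAt (Ioo_mem_nhds hσ.1 hσ.2))
  have h2 := h1.neg.exp
  refine h2.congr_deriv ?_
  unfold Th
  simp

lemma q_hd (hθ : ContinuousOn θ (Ioc 0 S)) {σ : ℝ} (hσ : σ ∈ Ioo 0 S) :
    HasDerivAt (fun s => Th S θ s / s) ((θ σ - 1) * (Th S θ σ / σ) / σ) σ := by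
  have h1 := (th_hd hθ hσ).div (hasDerivAt_id σ) hσ.1.ne'
  refine h1.congr_deriv ?_
  have := hσ.1.ne'
  simp only [id]
  field_simp

lemma ps_hd (hθ : ContinuousOn θ (Ioc 0 S))
    (hint : IntegrableOn (fun s => Th S θ s / s) (Ioc 0 S)) {σ : ℝ} (hσ : σ ∈ Ioo 0 S) :
    HasDerivAt (Ps S θ) (Th S θ σ / σ) σ := by
  have hc : ContinuousOn (fun s => Th S θ s / s) (Ioo 0 S) := fun s hs =>
    (q_hd hθ hs).continuousAt.continuousWithinAt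
  refine intervalIntegral.integral_hasDerivAt_right ?_
    (hc.stronglyMeasurableAtFilter isOpen_Ioo σ hσ) (hc.continuousAt (Ioo_mem_nhds hσ.1 hσ.2))
  rw [intervalIntegrable_iff_integrableOn_Ioc_of_le hσ.1.le]
  exact hint.mono_set (Ioc_subset_Ioc_right hσ.2.le)

/-- lower bound of `Θ` -/
lemma th_low (hθ : ContinuousOn θ (Ioc 0 S)) (hle : ∀ σ ∈ Ioc 0 S, θ σ ≤ θ₀) {σ : ℝ}
    (hσ : σ ∈ Ioc 0 S) : (σ / S) ^ θ₀ ≤ Th S θ σ := by
  have hS : 0 < S := hσ.1.trans_le hσ.2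
  have h1 : ∫ r in σ..S, θ r / r ≤ ∫ r in σ..S, θ₀ * r⁻¹ := by
    apply intervalIntegral.integral_mono_on hσ.2 (div_int hθ hσ)
    · apply ContinuousOn.intervalIntegrable
      rw [uIcc_of_le hσ.2]
      exact continuousOn_const.mul (continuousOn_id.inv₀ fun r hr => (hσ.1.trans_le hr.1).ne')
    · intro r hr
      have hr0 : 0 < r := hσ.1.trans_le hr.1
      rw [div_eq_mul_inv]
      exact mul_le_mul_of_nonneg_right (hle r ⟨hr0, hr.2⟩) (by positivity)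
  rw [intervalIntegral.integral_const_mul, integral_inv_of_pos hσ.1 hS] at h1
  unfold Th
  rw [Real.rpow_def_of_pos (by have := hσ.1; positivity)]
  apply Real.exp_le_exp.2
  have h2 : Real.log (σ / S) = -Real.log (S / σ) := by
    rw [← Real.log_inv, inv_div]
  rw [h2]
  linarith

lemma ps_pos (hθ : ContinuousOn θ (Ioc 0 S))
    (hint : IntegrableOn (fun s => Th S θ s / s) (Ioc 0 S)) (hle : ∀ σ ∈ Ioc 0 S, θ σ ≤ θ₀)
    (hθ₀ : 0 ≤ θ₀) {σ : ℝ} (hσ : σ ∈ Ioc 0 S) : 1 / 2 * (σ / (2 * S)) ^ θ₀ ≤ Ps S θ σ := by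
  have hS : 0 < S := hσ.1.trans_le hσ.2
  have hσ0 := hσ.1
  have hi1 : IntervalIntegrable (fun s => Th S θ s / s) volume 0 (σ / 2) := by
    rw [intervalIntegrable_iff_integrableOn_Ioc_of_le (by positivity)]
    exact hint.mono_set (Ioc_subset_Ioc_right (by linarith [hσ.2]))
  have hi2 : IntervalIntegrable (fun s => Th S θ s / s) volume (σ / 2) σ := by
    rw [intervalIntegrable_iff_integrableOn_Ioc_of_le (by linarith)]
    exact hint.mono_set (Ioc_subset_Ioc (by positivity) hσ.2)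
  have h1 : Ps S θ σ = (∫ s in (0 : ℝ)..(σ / 2), Th S θ s / s)
      + ∫ s in (σ / 2)..σ, Th S θ s / s :=
    (intervalIntegral.integral_add_adjacent_intervals hi1 hi2).symm
  have h2 : 0 ≤ ∫ s in (0 : ℝ)..(σ / 2), Th S θ s / s := by
    apply intervalIntegral.integral_nonneg (by positivity)
    intro s hs
    exact div_nonneg (th_pos s).le hs.1
  have h3 : ∫ _s in (σ / 2)..σ, (σ / (2 * S)) ^ θ₀ / σ ≤ ∫ s in (σ / 2)..σ, Th S θ s / s := by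
    apply intervalIntegral.integral_mono_on (by linarith) (by simp) hi2
    intro s hs
    have hs0 : 0 < s := by linarith [hs.1]
    have h4 := th_low hθ hle (σ := s) ⟨hs0, hs.2.trans hσ.2⟩
    have h5 : (σ / (2 * S)) ^ θ₀ ≤ (s / S) ^ θ₀ := by
      apply Real.rpow_le_rpow (by positivity) _ hθ₀
      rw [div_le_div_iff₀ (by positivity) hS]
      nlinarith [hs.1]
    have h6 : 0 ≤ (σ / (2 * S)) ^ θ₀ := by positivity
    calc (σ / (2 * S)) ^ θ₀ / σ ≤ (σ / (2 * S)) ^ θ₀ / s :=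
          div_le_div_of_nonneg_left h6 hs0 hs.2
      _ ≤ Th S θ s / s := div_le_div_of_nonneg_right (h5.trans h4) hs0.le
  rw [intervalIntegral.integral_const, smul_eq_mul] at h3
  have h7 : (σ - σ / 2) * ((σ / (2 * S)) ^ θ₀ / σ) = 1 / 2 * (σ / (2 * S)) ^ θ₀ := by
    field_simp
    ring
  rw [h7] at h3
  linarith

lemma ps_cont (hS : 0 < S) (hint : IntegrableOn (fun s => Th S θ s / s) (Ioc 0 S)) :
    ContinuousOn (Ps S θ) (Ioc 0 S) := by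
  have h1 : IntegrableOn (fun s => Th S θ s / s) (uIcc 0 S) := by
    rw [uIcc_of_le hS.le, integrableOn_Icc_iff_integrableOn_Ioc]
    exact hint
  have h2 := intervalIntegral.continuousOn_primitive_interval h1
  rw [uIcc_of_le hS.le] at h2
  exact h2.mono Ioc_subset_Icc_self

lemma ps_axis (hS : 0 < S) (hθ : ContinuousOn θ (Ioc 0 S))
    (hint : IntegrableOn (fun s => Th S θ s / s) (Ioc 0 S)) (hle : ∀ σ ∈ Ioc 0 S, θ σ ≤ θ₀)
    (hθ₀ : 0 ≤ θ₀) (hθ₁ : θ₀ < 1 / 2) : ∀ ε > 0, ∃ δ > 0, ∀ σ ∈ Ioc 0 S, σ < δ →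
      √σ ≤ ε * Ps S θ σ := by
  intro ε hε
  obtain ⟨a, ha⟩ : ∃ a : ℝ, a = 1 / 2 - θ₀ := ⟨_, rfl⟩
  have ha0 : 0 < a := by rw [ha]; linarith
  obtain ⟨c, hc⟩ : ∃ c : ℝ, c = ε * (1 / 2 * (1 / (2 * S)) ^ θ₀) := ⟨_, rfl⟩
  have hc0 : 0 < c := by rw [hc]; positivity
  refine ⟨c ^ (1 / a), by positivity, fun σ hσ hσδ => ?_⟩
  have hσ0 := hσ.1
  have h1 := ps_pos hθ hint hle hθ₀ hσ
  have h2 : σ ^ a ≤ c := by
    calc σ ^ a ≤ (c ^ (1 / a)) ^ a := Real.rpow_le_rpow hσ0.le hσδ.le ha0.le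
      _ = c := by
        rw [← Real.rpow_mul hc0.le, one_div_mul_cancel ha0.ne', Real.rpow_one]
  have h3 : √σ = σ ^ a * σ ^ θ₀ := by
    rw [Real.sqrt_eq_rpow, ← Real.rpow_add hσ0, ha]
    congr 1
    ring
  have h4 : (σ / (2 * S)) ^ θ₀ = (1 / (2 * S)) ^ θ₀ * σ ^ θ₀ := by
    rw [← Real.mul_rpow (by positivity) hσ0.le]
    congr 1
    ring
  rw [h4] at h1
  calc √σ = σ ^ a * σ ^ θ₀ := h3
    _ ≤ c * σ ^ θ₀ := mul_le_mul_of_nonneg_right h2 (by positivity)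
    _ = ε * (1 / 2 * ((1 / (2 * S)) ^ θ₀ * σ ^ θ₀)) := by rw [hc]; ring
    _ ≤ ε * Ps S θ σ := mul_le_mul_of_nonneg_left h1 hε.le

end

section log
variable {S κ : ℝ}

/-- `1 + log (S / σ)` -/
noncomputable def Lg (S σ : ℝ) : ℝ := 1 + Real.log (S / σ)

lemma lg_one {σ : ℝ} (hσ : σ ∈ Ioc 0 S) : 1 ≤ Lg S σ := by
  unfold Lg
  have : 0 ≤ Real.log (S / σ) := Real.log_nonneg ((one_le_div hσ.1).2 hσ.2)
  linarith

lemma lg_hd (hS : 0 < S) {σ : ℝ} (hσ : 0 < σ) : HasDerivAt (Lg S) (-1 / σ) σ := by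
  have h1 : HasDerivAt (fun σ => 1 + (Real.log S - Real.log σ)) (0 - σ⁻¹) σ :=
    ((Real.hasDerivAt_log hσ.ne').const_sub _).const_add 1 |>.congr_deriv (by ring)
  have h2 : Lg S =ᶠ[𝓝 σ] fun σ => 1 + (Real.log S - Real.log σ) := by
    filter_upwards [Ioi_mem_nhds hσ] with s hs
    unfold Lg
    rw [Real.log_div hS.ne' (ne_of_gt hs)]
  exact (h1.congr_of_eventuallyEq h2).congr_deriv (by ring)

lemma lp_hd (hS : 0 < S) (a : ℝ) {σ : ℝ} (hσ : σ ∈ Ioc 0 S) :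
    HasDerivAt (fun s => Lg S s ^ (-a)) (a * Lg S σ ^ (-a - 1) / σ) σ := by
  have h1 := lg_one hσ
  have h2 := (lg_hd hS hσ.1).rpow_const (p := -a) (Or.inl (by linarith))
  refine h2.congr_deriv ?_
  ring

lemma lq_hd (hS : 0 < S) {σ : ℝ} (hσ : σ ∈ Ioc 0 S) :
    HasDerivAt (fun s => κ * Lg S s ^ (-κ - 1) / s)
      (((κ + 1) / Lg S σ - 1) * (κ * Lg S σ ^ (-κ - 1) / σ) / σ) σ := by
  have h1 := lg_one hσ
  have h2 := lp_hd hS (κ + 1) hσ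
  have e1 : -(κ + 1) = -κ - 1 := by ring
  rw [e1] at h2
  have h3 := (h2.const_mul κ).div (hasDerivAt_id σ) hσ.1.ne'
  refine h3.congr_deriv ?_
  have h4 : Lg S σ ^ (-κ - 1 - 1) = Lg S σ ^ (-κ - 1) / Lg S σ := by
    rw [Real.rpow_sub_one (by linarith)]
  rw [h4]
  have h5 := hσ.1.ne'
  have h6 : Lg S σ ≠ 0 := by linarith
  simp only [id]
  field_simp

lemma lg_axis (hS : 0 < S) (hκ : 0 < κ) : ∀ ε > 0, ∃ δ > 0, ∀ σ ∈ Ioc 0 S, σ < δ →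
    √σ ≤ ε * Lg S σ ^ (-κ) := by
  intro ε hε
  obtain ⟨c, hc⟩ : ∃ c : ℝ, c = (1 + 4 * κ) ^ κ * S ^ (1 / 4 : ℝ) := ⟨_, rfl⟩
  have hc0 : 0 < c := by rw [hc]; positivity
  refine ⟨(ε / c) ^ 4, by positivity, fun σ hσ hσδ => ?_⟩
  have hσ0 := hσ.1
  have h1 := lg_one hσ
  have hy : 1 ≤ S / σ := (one_le_div hσ0).2 hσ.2
  have h2 : Lg S σ ≤ (1 + 4 * κ) * (S / σ) ^ (1 / (4 * κ)) := by
    have h3 := Real.log_le_rpow_div (x := S / σ) (by positivity) (show 0 < 1 / (4 * κ) by positivity)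
    have h4 : 1 ≤ (S / σ) ^ (1 / (4 * κ)) := Real.one_le_rpow hy (by positivity)
    have h5 : (S / σ) ^ (1 / (4 * κ)) / (1 / (4 * κ)) = 4 * κ * (S / σ) ^ (1 / (4 * κ)) := by
      field_simp
    rw [h5] at h3
    unfold Lg
    linarith
  have h3 : Lg S σ ^ κ ≤ (1 + 4 * κ) ^ κ * (S / σ) ^ (1 / 4 : ℝ) := by
    calc Lg S σ ^ κ ≤ ((1 + 4 * κ) * (S / σ) ^ (1 / (4 * κ))) ^ κ :=
          Real.rpow_le_rpow (by linarith) h2 hκ.le
      _ = (1 + 4 * κ) ^ κ * (S / σ) ^ (1 / 4 : ℝ) := by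
        rw [Real.mul_rpow (by positivity) (by positivity), ← Real.rpow_mul (by positivity)]
        congr 2
        field_simp
  have h4 : σ ^ (1 / 4 : ℝ) ≤ ε / c := by
    calc σ ^ (1 / 4 : ℝ) ≤ ((ε / c) ^ 4) ^ (1 / 4 : ℝ) :=
          Real.rpow_le_rpow hσ0.le hσδ.le (by norm_num)
      _ = ε / c := by
        rw [← Real.rpow_natCast, ← Real.rpow_mul (by positivity)]
        norm_num
  have h5 : √σ = σ ^ (1 / 4 : ℝ) * σ ^ (1 / 4 : ℝ) := by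
    rw [Real.sqrt_eq_rpow, ← Real.rpow_add hσ0]
    norm_num
  have h6 : (S / σ) ^ (1 / 4 : ℝ) * σ ^ (1 / 4 : ℝ) = S ^ (1 / 4 : ℝ) := by
    rw [← Real.mul_rpow (by positivity) hσ0.le]
    congr 1
    field_simp
  have h7 : √σ * Lg S σ ^ κ ≤ ε := by
    calc √σ * Lg S σ ^ κ ≤ √σ * ((1 + 4 * κ) ^ κ * (S / σ) ^ (1 / 4 : ℝ)) := by gcongr
      _ = σ ^ (1 / 4 : ℝ) * ((1 + 4 * κ) ^ κ * ((S / σ) ^ (1 / 4 : ℝ) * σ ^ (1 / 4 : ℝ))) := by
        rw [h5]; ring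
      _ = σ ^ (1 / 4 : ℝ) * c := by rw [h6, hc]
      _ ≤ ε / c * c := by gcongr
      _ = ε := by field_simp
  have h8 : 0 < Lg S σ ^ κ := Real.rpow_pos_of_pos (by linarith) _
  rw [Real.rpow_neg (by linarith), ← div_eq_mul_inv, le_div_iff₀ h8]
  exact h7

end log

end Pool.Agent.Q176.AX
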